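import Mathlib

/-!
# MP_8cf907_al: the quantum automorphism group of the complete hypergraph is the classical
symmetric group
-/

set_option autoImplicit false

namespace Pool.Agent.Results.MP_8cf907_al.ClassicalGroup

open Matrix Finset
open scoped ComplexOrder

/-- A magic unitary over a unital C*-algebra: all entries are projections, all rows and all
columns sum to `1`. -/
structure Magic {X B : Type} [Fintype X] [CStarAlgebra B] (u : Matrix X X B) : Prop where
  star : ∀ i j, star (u i j) = u i j
  sq : ∀ i j, u i j * u i j = u i j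
  row : ∀ i, ∑ j, u i j = 1
  col : ∀ j, ∑ i, u i j = 1

/-- A hypergraph with vertices `V`, edges `E`, source map `s` and range map `r`. -/
structure Hypergraph (V E : Type) where
  s : E → Finset V
  r : E → Finset V

/-- The incidence matrix of a map `E → 𝒫(V)`, with entries in `B`. -/
def inc {V E : Type} (B : Type) [DecidableEq V] [CStarAlgebra B] (s : E → Finset V) :
    Matrix V E B :=
  Matrix.of fun v e => if v ∈ s e then 1 else 0

/-- The relations defining `C(Aut⁺(Γ))`. -/
structure Rel {V E B : Type} [Fintype V] [DecidableEq V] [Fintype E] [CStarAlgebra B]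
    (Γ : Hypergraph V E) (uV : Matrix V V B) (uE : Matrix E E B) : Prop where
  magicV : Magic uV
  magicE : Magic uE
  src : inc B Γ.s * uE = uV * inc B Γ.s
  rng : inc B Γ.r * uE = uV * inc B Γ.r

/-- `(C, u)` is the universal unital C*-algebra generated by the entries of a magic unitary indexed
by `V`, that is, `(C, u) = (C(S_V⁺), u)`. -/
structure IsQPerm {V C : Type} [Fintype V] [CStarAlgebra C] (u : Matrix V V C) : Prop where
  magic : Magic u
  univ : ∀ (B : Type) [CStarAlgebra B] (w : Matrix V V B), Magic w →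
    ∃! φ : C →⋆ₐ[ℂ] B, ∀ v v', φ (u v v') = w v v'

/-- `(𝒜, uV, uE)` is the universal unital C*-algebra defining `Aut⁺(Γ)`. -/
structure IsQAut {V E 𝒜 : Type} [Fintype V] [DecidableEq V] [Fintype E] [CStarAlgebra 𝒜]
    (Γ : Hypergraph V E) (uV : Matrix V V 𝒜) (uE : Matrix E E 𝒜) : Prop where
  rel : Rel Γ uV uE
  univ : ∀ (B : Type) [CStarAlgebra B] (wV : Matrix V V B) (wE : Matrix E E B), Rel Γ wV wE →
    ∃! φ : 𝒜 →⋆ₐ[ℂ] B, (∀ v v', φ (uV v v') = wV v v') ∧ ∀ e e', φ (uE e e') = wE e e'

/-- The complete hypergraph `Γ_V`: the edges are all pairs `(X, Y)` of subsets of `V`, with source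
`X` and range `Y`. -/
def complete (V : Type) : Hypergraph V (Finset V × Finset V) where
  s := Prod.fst
  r := Prod.snd

/-- The coordinate functions on the symmetric group: `u_{v w}(σ) = 1` if `σ w = v`, else `0`. -/
def clV (V : Type) [DecidableEq V] : Matrix V V (Equiv.Perm V → ℂ) :=
  Matrix.of fun v w σ => if σ w = v then 1 else 0

/-- `u_{e f}(σ) = 1` if `e = (σ X, σ Y)` where `f = (X, Y)`, else `0`. -/
def clE (V : Type) [DecidableEq V] :
    Matrix (Finset V × Finset V) (Finset V × Finset V) (Equiv.Perm V → ℂ) :=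
  Matrix.of fun e f σ => if e = (f.1.map σ.toEmbedding, f.2.map σ.toEmbedding) then 1 else 0

section general

variable {B : Type} [CStarAlgebra B]

theorem orth {X : Type} [Fintype X] (p : X → B) (hs : ∀ i, star (p i) = p i)
    (hq : ∀ i, p i * p i = p i) (h1 : ∑ i, p i = 1) {i j : X} (hij : i ≠ j) : p i * p j = 0 := by
  classical
  let _ := CStarAlgebra.spectralOrder B
  have _ := CStarAlgebra.spectralOrderedRing B
  have e : ∀ k, star (p k * p j) * (p k * p j) = p j * p k * p j := fun k => by
    rw [star_mul, hs, hs, mul_assoc, ← mul_assoc (p k), hq, mul_assoc]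
  have hsum : ∑ k ∈ univ.erase j, star (p k * p j) * (p k * p j) = 0 := by
    have h2 : ∑ k, star (p k * p j) * (p k * p j) = p j := by
      simp only [e]
      rw [← Finset.sum_mul, ← Finset.mul_sum, h1, mul_one, hq]
    rw [← Finset.add_sum_erase _ _ (mem_univ j), e, hq, hq] at h2
    simpa using h2
  have := (Finset.sum_eq_zero_iff_of_nonneg (fun k _ => star_mul_self_nonneg (p k * p j))).1 hsum i
    (by simp [hij])
  exact (CStarRing.star_mul_self_eq_zero_iff _).1 this

variable {X : Type} [Fintype X] {u : Matrix X X B}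

theorem Magic.orthRow (h : Magic u) (i : X) {j k : X} (hjk : j ≠ k) : u i j * u i k = 0 :=
  orth (fun j => u i j) (h.star i) (h.sq i) (h.row i) hjk

theorem Magic.orthCol (h : Magic u) (i : X) {j k : X} (hjk : j ≠ k) : u j i * u k i = 0 :=
  orth (fun j => u j i) (fun j => h.star j i) (fun j => h.sq j i) (h.col i) hjk

/-- a product of two projections which is selfadjoint -/
theorem comm_of_self (a b : B) (ha : star a = a) (hb : star b = b) (h : a * b = a * b * a) :
    a * b = b * a := by
  have h2 := congrArg star h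
  simp only [star_mul, ha, hb] at h2
  rw [h2, h, mul_assoc]

theorem map_orth (h : Magic u) {i i' j j' : X} (hc : ∀ i i' j j', i ≠ i' → j ≠ j' →
    u i j * u i' j' = u i' j' * u i j) : u i j * u i' j' = u i' j' * u i j := by
  by_cases hi : i = i'
  · subst hi
    by_cases hj : j = j'
    · subst hj; rfl
    · rw [h.orthRow i hj, h.orthRow i (Ne.symm hj)]
  · by_cases hj : j = j'
    · subst hj
      rw [h.orthCol j hi, h.orthCol j (Ne.symm hi)]
    · exact hc i i' j j' hi hj

end general

section classical

variable {B V : Type} [CStarAlgebra B] [Fintype V] [DecidableEq V] {u : Matrix V V B}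

theorem exists_p (h : Magic u) (hc : ∀ i j i' j', u i j * u i' j' = u i' j' * u i j) :
    ∃ p : Equiv.Perm V → B, (∑ σ, p σ = 1) ∧
      (∀ σ v w, u v w * p σ = if σ w = v then p σ else 0) ∧
      (∀ σ τ, p σ * p τ = if σ = τ then p σ else 0) ∧ (∀ σ, star (p σ) = p σ) := by
  let s : Set B := {x | ∃ i j, x = u i j}
  have hcomm : ∀ a ∈ s, ∀ b ∈ s, a * b = b * a := by
    rintro _ ⟨i, j, rfl⟩ _ ⟨i', j', rfl⟩
    exact hc i j i' j'
  letI : CommRing (Algebra.adjoin ℂ s) := Algebra.adjoinCommRingOfComm ℂ hcomm
  let u' : V → V → Algebra.adjoin ℂ s := fun v w => ⟨u v w, Algebra.subset_adjoin ⟨v, w, rfl⟩⟩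
  let p' : Equiv.Perm V → Algebra.adjoin ℂ s := fun σ => ∏ w, u' (σ w) w
  have hsq : ∀ v w, u' v w * u' v w = u' v w := fun v w => Subtype.ext (h.sq v w)
  have hcol : ∀ v v' w, v ≠ v' → u' v w * u' v' w = 0 := fun v v' w hv =>
    Subtype.ext (h.orthCol w hv)
  have hrow : ∀ v w w', w ≠ w' → u' v w * u' v w' = 0 := fun v w w' hw =>
    Subtype.ext (h.orthRow v hw)
  have hsum : ∀ w, ∑ v, u' v w = 1 := fun w => Subtype.ext (by
    have := h.col w
    simpa [u'] using this)
  have hup : ∀ σ v w, u' v w * p' σ = if σ w = v then p' σ else 0 := by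
    intro σ v w
    have e : p' σ = u' (σ w) w * ∏ x ∈ univ.erase w, u' (σ x) x :=
      (Finset.mul_prod_erase univ (fun x => u' (σ x) x) (mem_univ w)).symm
    split_ifs with hw
    · rw [e, ← mul_assoc, ← hw, hsq]
    · rw [e, ← mul_assoc, hcol _ _ _ (Ne.symm hw), zero_mul]
  have hone : ∑ σ, p' σ = 1 := by
    have e1 : ∏ w, ∑ v, u' v w = 1 := by simp [hsum]
    rw [Finset.prod_univ_sum, Fintype.piFinset_univ] at e1
    rw [← e1]
    refine Finset.sum_of_injOn (fun σ : Equiv.Perm V => (σ : V → V)) ?_ ?_ ?_ ?_
    · intro σ _ τ _ hst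
      exact Equiv.coe_fn_injective hst
    · intro σ _
      simp
    · intro f _ hf
      have : ¬ Function.Injective f := fun hinj => hf
        ⟨Equiv.ofBijective f (Finite.injective_iff_bijective.1 hinj), by simp, rfl⟩
      obtain ⟨a, b, hab, hne⟩ : ∃ a b, f a = f b ∧ a ≠ b := by
        simpa [Function.Injective] using this
      rw [← Finset.mul_prod_erase univ _ (mem_univ a),
        ← Finset.mul_prod_erase (univ.erase a) _ (show b ∈ univ.erase a by simp [Ne.symm hne]),
        ← mul_assoc, hab, hrow _ _ _ hne, zero_mul]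
    · intro σ _
      rfl
  have act : ∀ (σ τ : Equiv.Perm V) (y : B),
      (∀ v w, u v w * y = if σ w = v then y else 0) → ∀ T : Finset V,
      ((∏ w ∈ T, u' (τ w) w : Algebra.adjoin ℂ s) : B) * y =
        if ∀ w ∈ T, σ w = τ w then y else 0 := by
    intro σ τ y hy T
    induction T using Finset.induction_on with
    | empty => simp
    | insert a T ha ih =>
      rw [Finset.prod_insert ha]
      change (u (τ a) a * ((∏ w ∈ T, u' (τ w) w : Algebra.adjoin ℂ s) : B)) * y = _
      rw [mul_assoc, ih]
      by_cases h1 : ∀ w ∈ T, σ w = τ w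
      · rw [if_pos h1, hy]
        by_cases h2 : σ a = τ a
        · rw [if_pos h2, if_pos]
          intro w hw
          rcases Finset.mem_insert.1 hw with rfl | hw
          · exact h2
          · exact h1 w hw
        · rw [if_neg h2, if_neg]
          intro hcon
          exact h2 (hcon a (Finset.mem_insert_self a T))
      · rw [if_neg h1, if_neg, mul_zero]
        intro hcon
        exact h1 fun w hw => hcon w (Finset.mem_insert_of_mem hw)
  have hupB : ∀ σ v w, u v w * (p' σ : B) = if σ w = v then (p' σ : B) else 0 := by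
    intro σ v w
    have := congrArg (Subtype.val) (hup σ v w)
    rw [apply_ite Subtype.val] at this
    exact this
  have hpu : ∀ σ v w, (p' σ : B) * u v w = if σ w = v then (p' σ : B) else 0 := by
    intro σ v w
    have := congrArg (Subtype.val) (hup σ v w)
    rw [mul_comm, apply_ite Subtype.val] at this
    exact this
  have hstar : ∀ σ, star (p' σ : B) = p' σ := by
    intro σ
    have e1 : (p' σ : B) * star (p' σ : B) = star (p' σ : B) := by
      have := act σ σ (star (p' σ : B)) (fun v w => by
        have := congrArg star (hpu σ v w)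
        rw [star_mul, h.star, apply_ite star, star_zero] at this
        exact this) univ
      simpa using this
    have e2 := congrArg star e1
    rw [star_mul, star_star, e1] at e2
    exact e2
  refine ⟨fun σ => (p' σ : B), ?_, hupB, ?_, hstar⟩
  · have h3 : ((∑ σ, p' σ : Algebra.adjoin ℂ s) : B) = 1 := by
      rw [hone]
      rfl
    rw [← h3]
    simp
  · intro σ τ
    have := act τ σ (p' τ : B) (hupB τ) univ
    change ((∏ w, u' (σ w) w : Algebra.adjoin ℂ s) : B) * (p' τ : B) = _
    rw [this]
    by_cases hst : σ = τ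
    · subst hst
      simp
    · rw [if_neg hst, if_neg]
      intro hcon
      exact hst (Equiv.ext fun w => (hcon w (mem_univ w)).symm)

/-- the homomorphism given by the orthogonal projections `p σ` -/
theorem exists_hom (p : Equiv.Perm V → B) (h1 : ∑ σ, p σ = 1)
    (hpp : ∀ σ τ, p σ * p τ = if σ = τ then p σ else 0) (hs : ∀ σ, star (p σ) = p σ) :
    ∃ φ : (Equiv.Perm V → ℂ) →⋆ₐ[ℂ] B, ∀ f, φ f = ∑ σ, f σ • p σ := by
  refine ⟨{ toFun := fun f => ∑ σ, f σ • p σ
            map_one' := by simpa using h1
            map_mul' := ?_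
            map_zero' := by simp
            map_add' := ?_
            commutes' := ?_
            map_star' := ?_ }, fun f => rfl⟩
  · intro f g
    rw [Finset.sum_mul]
    refine Finset.sum_congr rfl fun σ _ => ?_
    rw [Finset.mul_sum, Finset.sum_eq_single σ]
    · rw [smul_mul_smul_comm, hpp, if_pos rfl, Pi.mul_apply]
    · intro τ _ hτ
      rw [smul_mul_smul_comm, hpp, if_neg (Ne.symm hτ), smul_zero]
    · simp
  · intro f g
    simp only [Pi.add_apply, add_smul, Finset.sum_add_distrib]
  · intro r
    simp only [Pi.algebraMap_apply, Algebra.algebraMap_self, RingHom.id_apply]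
    rw [← Finset.smul_sum, h1, Algebra.algebraMap_eq_smul_one]
  · intro f
    simp only [Pi.star_apply, star_sum, star_smul, hs]

theorem hom_ext {φ ψ : (Equiv.Perm V → ℂ) →⋆ₐ[ℂ] B}
    (h : ∀ v w, φ (clV V v w) = ψ (clV V v w)) : φ = ψ := by
  have hmem : ∀ v w, clV V v w ∈ StarAlgHom.equalizer φ ψ := fun v w => h v w
  have hδ : ∀ σ : Equiv.Perm V, (Pi.single σ 1 : Equiv.Perm V → ℂ) ∈ StarAlgHom.equalizer φ ψ := by
    intro σ
    have : (Pi.single σ 1 : Equiv.Perm V → ℂ) = ∏ w, clV V (σ w) w := by
      funext τ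
      rw [Finset.prod_apply]
      by_cases hτ : τ = σ
      · subst hτ
        simp [clV]
      · rw [Pi.single_eq_of_ne hτ]
        obtain ⟨w, hw⟩ : ∃ w, τ w ≠ σ w := by
          by_contra hcon
          push Not at hcon
          exact hτ (Equiv.ext hcon)
        symm
        refine Finset.prod_eq_zero (mem_univ w) ?_
        simp [clV, hw]
    rw [this]
    exact prod_mem fun w _ => hmem _ _
  refine StarAlgHom.ext fun f => ?_
  have hf : f = ∑ σ, f σ • (Pi.single σ 1 : Equiv.Perm V → ℂ) := by
    funext τ
    rw [Finset.sum_apply, Finset.sum_eq_single τ]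
    · simp
    · intro σ _ hσ
      simp [Ne.symm hσ]
    · simp
  rw [hf, map_sum, map_sum]
  refine Finset.sum_congr rfl fun σ _ => ?_
  rw [map_smul, map_smul]
  exact congrArg _ (hδ σ)

theorem clV_magic : Magic (clV V) where
  star v w := by
    funext σ
    simp only [clV, Matrix.of_apply, Pi.star_apply]
    split_ifs <;> simp
  sq v w := by
    funext σ
    simp only [clV, Matrix.of_apply, Pi.mul_apply]
    split_ifs <;> simp
  row v := by
    funext σ
    rw [Finset.sum_apply, Finset.sum_eq_single (σ.symm v)]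
    · simp [clV]
    · intro w _ hw
      simp only [clV, Matrix.of_apply]
      rw [if_neg]
      rintro rfl
      exact hw (by simp)
    · simp
  col w := by
    funext σ
    rw [Finset.sum_apply, Finset.sum_eq_single (σ w)]
    · simp [clV]
    · intro v _ hv
      simp only [clV, Matrix.of_apply]
      rw [if_neg (Ne.symm hv)]
    · simp

/-- commuting magic unitaries: the universal property of the classical algebra -/
theorem classical_univ (h : Magic u) (hc : ∀ i j i' j', u i j * u i' j' = u i' j' * u i j) :
    ∃ p : Equiv.Perm V → B, (∑ σ, p σ = 1) ∧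
      (∀ σ v w, u v w * p σ = if σ w = v then p σ else 0) ∧
      ∃ φ : (Equiv.Perm V → ℂ) →⋆ₐ[ℂ] B, (∀ f, φ f = ∑ σ, f σ • p σ) ∧
        ∀ v w, φ (clV V v w) = u v w := by
  obtain ⟨p, h1, h2, h3, h4⟩ := exists_p h hc
  obtain ⟨φ, hφ⟩ := exists_hom p h1 h3 h4
  refine ⟨p, h1, h2, φ, hφ, fun v w => ?_⟩
  rw [hφ]
  conv_rhs => rw [← mul_one (u v w), ← h1, Finset.mul_sum]
  refine Finset.sum_congr rfl fun σ _ => ?_
  rw [h2]
  simp only [clV, Matrix.of_apply]
  split_ifs <;> simp

end classical

section hyper

variable {B V : Type} [CStarAlgebra B] [Fintype V] [DecidableEq V] {uV : Matrix V V B}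
  {uE : Matrix (Finset V × Finset V) (Finset V × Finset V) B}

/-- the absorbing relation: for one of the two maps `s` -/
theorem absorb (hE : Magic uE) (s : Finset V × Finset V → Finset V)
    (h : inc B s * uE = uV * inc B s) (e f : Finset V × Finset V) (v : V) :
    uE e f * ∑ w ∈ s f, uV v w = if v ∈ s e then uE e f else 0 := by
  have h1 : ∑ w ∈ s f, uV v w = ∑ e, (if v ∈ s e then 1 else 0) * uE e f := by
    have := congrFun (congrFun h v) f
    rw [Matrix.mul_apply, Matrix.mul_apply] at this
    simp only [inc, Matrix.of_apply] at this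
    rw [this]
    simp [Finset.sum_ite_mem]
  rw [h1, Finset.mul_sum, Finset.sum_eq_single e]
  · split_ifs
    · rw [one_mul, hE.sq]
    · simp
  · intro e' _ he'
    split_ifs
    · rw [one_mul, hE.orthCol f (Ne.symm he')]
    · simp
  · simp

theorem comm_sum (hE : Magic uE) (s : Finset V × Finset V → Finset V)
    (h : inc B s * uE = uV * inc B s) (f : Finset V × Finset V) (v v' : V) :
    (∑ w ∈ s f, uV v w) * ∑ w ∈ s f, uV v' w = (∑ w ∈ s f, uV v' w) * ∑ w ∈ s f, uV v w := by
  have h2 : ∀ v v', (∑ w ∈ s f, uV v w) * ∑ w ∈ s f, uV v' w =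
      ∑ e, if v ∈ s e then (if v' ∈ s e then uE e f else 0) else 0 := by
    intro v v'
    conv_lhs => rw [← one_mul ((∑ w ∈ s f, uV v w) * ∑ w ∈ s f, uV v' w), ← hE.col f,
      Finset.sum_mul]
    refine Finset.sum_congr rfl fun e _ => ?_
    rw [← mul_assoc, absorb hE s h]
    split_ifs with h1 h2
    · rw [absorb hE s h, if_pos h2]
    · rw [absorb hE s h, if_neg h2]
    · rw [zero_mul]
  rw [h2, h2]
  refine Finset.sum_congr rfl fun e _ => ?_
  split_ifs <;> rfl

theorem comm_entries (h : Rel (complete V) uV uE) (i j i' j' : V) :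
    uV i j * uV i' j' = uV i' j' * uV i j := by
  refine map_orth h.magicV fun v v' a b hv hab => ?_
  have h1 := comm_sum h.magicE Prod.fst h.src ({a, b}, ∅) v v'
  simp only [Finset.sum_pair hab] at h1
  refine comm_of_self _ _ (h.magicV.star _ _) (h.magicV.star _ _) ?_
  symm
  have e1 : uV v a * ((uV v a + uV v b) * (uV v' a + uV v' b)) = uV v a * uV v' b := by
    rw [← mul_assoc, mul_add (uV v a), h.magicV.sq, h.magicV.orthRow v hab, add_zero, mul_add,
      h.magicV.orthCol a hv, zero_add]
  have e2 : uV v a * ((uV v' a + uV v' b) * (uV v a + uV v b)) =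
      uV v a * uV v' b * uV v a := by
    rw [← mul_assoc, mul_add (uV v a) (uV v' a), h.magicV.orthCol a hv, zero_add, mul_add,
      mul_assoc _ (uV v' b) (uV v b), h.magicV.orthCol b (Ne.symm hv), mul_zero, add_zero]
  rw [← e2, ← h1, e1]

theorem edge_p (h : Rel (complete V) uV uE) (p : Equiv.Perm V → B)
    (h2 : ∀ σ v w, uV v w * p σ = if σ w = v then p σ else 0)
    (σ : Equiv.Perm V) (e f : Finset V × Finset V) :
    uE e f * p σ = if e = (f.1.map σ.toEmbedding, f.2.map σ.toEmbedding) then p σ else 0 := by
  have key : ∀ (s : Finset V × Finset V → Finset V), inc B s * uE = uV * inc B s →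
      ∀ e f : Finset V × Finset V, s e ≠ (s f).map σ.toEmbedding → uE e f * p σ = 0 := by
    intro s hs e f hne
    have hP : ∀ v, (∑ w ∈ s f, uV v w) * p σ =
        if v ∈ (s f).map σ.toEmbedding then p σ else 0 := by
      intro v
      rw [Finset.sum_mul]
      simp only [h2]
      by_cases hv : v ∈ (s f).map σ.toEmbedding
      · rw [if_pos hv]
        obtain ⟨w, hw, rfl⟩ := Finset.mem_map.1 hv
        rw [Finset.sum_eq_single w]
        · simp
        · intro w' _ hw'
          rw [if_neg]
          intro hcon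
          exact hw' (σ.injective hcon)
        · intro hcon
          exact absurd hw hcon
      · rw [if_neg hv]
        refine Finset.sum_eq_zero fun w hw => ?_
        rw [if_neg]
        intro hcon
        exact hv (Finset.mem_map.2 ⟨w, hw, hcon⟩)
    obtain ⟨v, hv⟩ : ∃ v, ¬ (v ∈ s e ↔ v ∈ (s f).map σ.toEmbedding) := by
      by_contra hcon
      push Not at hcon
      exact hne (Finset.ext hcon)
    have ha := absorb h.magicE s hs e f v
    by_cases h3 : v ∈ s e
    · have h4 : v ∉ (s f).map σ.toEmbedding := fun h4 => hv ⟨fun _ => h4, fun _ => h3⟩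
      rw [if_pos h3] at ha
      rw [← ha, mul_assoc, hP, if_neg h4, mul_zero]
    · have h4 : v ∈ (s f).map σ.toEmbedding := by
        by_contra h4
        exact hv ⟨fun h => absurd h h3, fun h => absurd h h4⟩
      have h5 := hP v
      rw [if_pos h4] at h5
      rw [← h5, ← mul_assoc, ha, if_neg h3, zero_mul]
  have key2 : ∀ e f : Finset V × Finset V,
      e ≠ (f.1.map σ.toEmbedding, f.2.map σ.toEmbedding) → uE e f * p σ = 0 := by
    intro e f hne
    by_cases h3 : e.1 = f.1.map σ.toEmbedding
    · have h4 : e.2 ≠ f.2.map σ.toEmbedding := fun h4 => hne (Prod.ext h3 h4)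
      exact key Prod.snd h.rng e f h4
    · exact key Prod.fst h.src e f h3
  split_ifs with he
  · have h3 : ∑ e, uE e f * p σ = p σ := by
      rw [← Finset.sum_mul, h.magicE.col, one_mul]
    rw [Finset.sum_eq_single e] at h3
    · exact h3
    · intro e' _ he'
      exact key2 e' f (by rw [← he]; exact he')
    · simp
  · exact key2 e f he

theorem clE_magic : Magic (clE V) where
  star e f := by
    funext σ
    simp only [clE, Matrix.of_apply, Pi.star_apply]
    split_ifs <;> simp
  sq e f := by
    funext σ
    simp only [clE, Matrix.of_apply, Pi.mul_apply]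
    split_ifs <;> simp
  row e := by
    funext σ
    rw [Finset.sum_apply, Finset.sum_eq_single
      (e.1.map σ.symm.toEmbedding, e.2.map σ.symm.toEmbedding)]
    · simp [clE, Finset.map_map]
    · intro f _ hf
      simp only [clE, Matrix.of_apply]
      rw [if_neg]
      intro hcon
      apply hf
      rw [hcon]
      simp [Finset.map_map]
    · simp
  col f := by
    funext σ
    rw [Finset.sum_apply, Finset.sum_eq_single (f.1.map σ.toEmbedding, f.2.map σ.toEmbedding)]
    · simp [clE]
    · intro e _ he
      simp only [clE, Matrix.of_apply]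
      rw [if_neg he]
    · simp

theorem cl_rel (s : Finset V × Finset V → Finset V)
    (hs : ∀ (σ : Equiv.Perm V) (f : Finset V × Finset V),
      s (f.1.map σ.toEmbedding, f.2.map σ.toEmbedding) = (s f).map σ.toEmbedding) :
    inc (Equiv.Perm V → ℂ) s * clE V = clV V * inc (Equiv.Perm V → ℂ) s := by
  refine Matrix.ext fun v f => ?_
  funext σ
  rw [Matrix.mul_apply, Matrix.mul_apply, Finset.sum_apply, Finset.sum_apply]
  rw [Finset.sum_eq_single (f.1.map σ.toEmbedding, f.2.map σ.toEmbedding),
    Finset.sum_eq_single (σ.symm v)]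
  · simp only [inc, clE, clV, Matrix.of_apply, Pi.mul_apply, hs]
    by_cases hv : σ.symm v ∈ s f
    · rw [if_pos hv, if_pos]
      · simp
      · exact Finset.mem_map.2 ⟨_, hv, by simp⟩
    · rw [if_neg hv, if_neg]
      · simp
      · intro hcon
        obtain ⟨w, hw, hw'⟩ := Finset.mem_map.1 hcon
        apply hv
        rw [← hw']
        simpa using hw
  · intro w _ hw
    simp only [inc, clV, Matrix.of_apply, Pi.mul_apply]
    rw [if_neg (show ¬ σ w = v by rintro rfl; exact hw (by simp)), zero_mul]
  · simp
  · intro e _ he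
    simp only [inc, clE, Matrix.of_apply, Pi.mul_apply]
    rw [if_neg he, mul_zero]
  · simp

theorem cl_Rel : Rel (complete V) (clV V) (clE V) :=
  ⟨clV_magic, clE_magic, cl_rel _ fun _ _ => rfl, cl_rel _ fun _ _ => rfl⟩

theorem isQAut_classical : IsQAut (complete V) (clV V) (clE V) where
  rel := cl_Rel
  univ B _ wV wE hw := by
    obtain ⟨p, h1, h2, φ, hφ, hφV⟩ := classical_univ hw.magicV (comm_entries hw)
    refine ⟨φ, ⟨hφV, fun e f => ?_⟩, fun ψ hψ => ?_⟩
    · rw [hφ]
      conv_rhs => rw [← mul_one (wE e f), ← h1, Finset.mul_sum]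
      refine Finset.sum_congr rfl fun σ _ => ?_
      rw [edge_p hw p h2]
      simp only [clE, Matrix.of_apply]
      split_ifs <;> simp
    · exact hom_ext fun v w => by rw [hψ.1, hφV]

end hyper

section small

/-- for at most three points, the entries of a magic unitary commute -/
theorem comm_of_card {B V : Type} [CStarAlgebra B] [Fintype V] [DecidableEq V] {u : Matrix V V B}
    (h : Magic u) (hV : Fintype.card V ≤ 3) (i j i' j' : V) :
    u i j * u i' j' = u i' j' * u i j := by
  refine map_orth h fun v v' a b hv hab => ?_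
  refine comm_of_self _ _ (h.star _ _) (h.star _ _) ?_
  have key : ∀ c, c ≠ a → u v a * u v' b * u v c = 0 := by
    intro c hc
    by_cases hcb : c = b
    · subst hcb
      rw [mul_assoc, h.orthCol c (Ne.symm hv), mul_zero]
    · have hall : ∀ x, x ≠ b → x = a ∨ x = c := by
        intro x hx
        by_contra hcon
        push Not at hcon
        have h4 : ({a, b, c, x} : Finset V).card = 4 := by
          rw [Finset.card_insert_of_notMem, Finset.card_insert_of_notMem,
            Finset.card_insert_of_notMem, Finset.card_singleton]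
          · simp [Ne.symm hcon.2]
          · simp [Ne.symm hcb, Ne.symm hx]
          · simp [hab, Ne.symm hc, Ne.symm hcon.1]
        have h5 := Finset.card_le_univ ({a, b, c, x} : Finset V)
        omega
      have h6 : u v a * (∑ x, u v' x) * u v c = u v a * u v' b * u v c := by
        rw [Finset.mul_sum, Finset.sum_mul, Finset.sum_eq_single b]
        · intro x _ hx
          rcases hall x hx with rfl | rfl
          · rw [h.orthCol x hv, zero_mul]
          · rw [mul_assoc, h.orthCol x (Ne.symm hv), mul_zero]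
        · simp
      rw [h.row, mul_one, h.orthRow v (Ne.symm hc)] at h6
      exact h6.symm
  conv_lhs => rw [← mul_one (u v a * u v' b), ← h.row v, Finset.mul_sum]
  rw [Finset.sum_eq_single a]
  · intro c _ hc
    exact key c hc
  · simp

end small

section large

/-- a magic unitary built from an involution `τ` and projections `e` with `e ∘ τ = e` -/
def blockMagic {B V : Type} [CStarAlgebra B] [DecidableEq V] (τ : V → V) (e : V → B) :
    Matrix V V B :=
  Matrix.of fun v w => (if w = v then e v else 0) + (if w = τ v then 1 - e v else 0)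

theorem blockMagic_magic {B V : Type} [CStarAlgebra B] [Fintype V] [DecidableEq V] (τ : V → V)
    (hτ : ∀ v, τ (τ v) = v) (e : V → B) (he : ∀ v, e (τ v) = e v) (hs : ∀ v, star (e v) = e v)
    (hq : ∀ v, e v * e v = e v) : Magic (blockMagic τ e) where
  star v w := by
    simp only [blockMagic, Matrix.of_apply]
    split_ifs <;> simp [hs]
  sq v w := by
    simp only [blockMagic, Matrix.of_apply]
    split_ifs
    · simp
    · simp [hq]
    · simp only [zero_add]
      rw [mul_sub, sub_mul, sub_mul, hq]
      simp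
    · simp
  row v := by
    simp [blockMagic, Finset.sum_add_distrib]
  col w := by
    simp only [blockMagic, Matrix.of_apply, Finset.sum_add_distrib]
    rw [Finset.sum_eq_single w, Finset.sum_eq_single (τ w)]
    · simp [hτ, he]
    · intro v _ hv
      rw [if_neg]
      rintro rfl
      exact hv (hτ v).symm
    · simp
    · intro v _ hv
      rw [if_neg (Ne.symm hv)]
    · simp

/-- two noncommuting projections -/
theorem exists_projections : ∃ p q : CStarMatrix (Fin 2) (Fin 2) ℂ, star p = p ∧ star q = q ∧
    p * p = p ∧ q * q = q ∧ p * q ≠ q * p := by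
  refine ⟨CStarMatrix.ofMatrix !![1, 0; 0, 0], CStarMatrix.ofMatrix !![1/2, 1/2; 1/2, 1/2],
    ?_, ?_, ?_, ?_, ?_⟩
  · ext i j
    fin_cases i <;> fin_cases j <;> simp [CStarMatrix.star_apply]
  · ext i j
    fin_cases i <;> fin_cases j <;> simp [CStarMatrix.star_apply]
  · ext i j
    fin_cases i <;> fin_cases j <;> simp [CStarMatrix.mul_apply, Fin.sum_univ_two]
  · ext i j
    fin_cases i <;> fin_cases j <;> simp [CStarMatrix.mul_apply, Fin.sum_univ_two] <;> norm_num
  · intro h
    have := congrFun (congrFun h 0) 1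
    simp [CStarMatrix.mul_apply, Fin.sum_univ_two] at this

theorem exists_noncomm {V : Type} [Fintype V] [DecidableEq V] (hV : 4 ≤ Fintype.card V) :
    ∃ w : Matrix V V (CStarMatrix (Fin 2) (Fin 2) ℂ), Magic w ∧
      ∃ i j i' j', w i j * w i' j' ≠ w i' j' * w i j := by
  obtain ⟨f⟩ : Nonempty (Fin 4 ↪ V) :=
    Function.Embedding.nonempty_of_card_le (by simpa using hV)
  obtain ⟨p, q, hp, hq, hp2, hq2, hpq⟩ := exists_projections
  let τ : V → V := fun v => if v = f 0 then f 1 else if v = f 1 then f 0 else if v = f 2 then f 3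
    else if v = f 3 then f 2 else v
  have h01 : f 0 ≠ f 1 := fun h => absurd (f.injective h) (by decide)
  have h02 : f 0 ≠ f 2 := fun h => absurd (f.injective h) (by decide)
  have h03 : f 0 ≠ f 3 := fun h => absurd (f.injective h) (by decide)
  have h12 : f 1 ≠ f 2 := fun h => absurd (f.injective h) (by decide)
  have h13 : f 1 ≠ f 3 := fun h => absurd (f.injective h) (by decide)
  have h23 : f 2 ≠ f 3 := fun h => absurd (f.injective h) (by decide)
  let e : V → CStarMatrix (Fin 2) (Fin 2) ℂ := fun v => if v = f 0 ∨ v = f 1 then p else q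
  have hτ : ∀ v, τ (τ v) = v := by
    intro v
    simp only [τ]
    by_cases h0 : v = f 0
    · subst h0; simp [h01.symm]
    by_cases h1 : v = f 1
    · subst h1; simp [h01.symm]
    by_cases h2 : v = f 2
    · subst h2; simp [h02.symm, h12.symm, h03.symm, h13.symm, h23.symm]
    by_cases h3 : v = f 3
    · subst h3; simp [h02.symm, h12.symm, h03.symm, h13.symm, h23.symm]
    simp [h0, h1, h2, h3]
  have he : ∀ v, e (τ v) = e v := by
    intro v
    simp only [τ, e]
    by_cases h0 : v = f 0
    · subst h0; simp
    by_cases h1 : v = f 1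
    · subst h1; simp [h01.symm]
    by_cases h2 : v = f 2
    · subst h2; simp [h02.symm, h12.symm, h03.symm, h13.symm]
    by_cases h3 : v = f 3
    · subst h3; simp [h02.symm, h12.symm, h03.symm, h13.symm, h23.symm]
    simp [h0, h1, h2, h3]
  refine ⟨blockMagic τ e, blockMagic_magic τ hτ e he ?_ ?_, f 0, f 0, f 2, f 2, ?_⟩
  · intro v
    simp only [e]
    split_ifs
    · exact hp
    · exact hq
  · intro v
    simp only [e]
    split_ifs
    · exact hp2
    · exact hq2
  · have e1 : blockMagic τ e (f 0) (f 0) = p := by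
      simp [blockMagic, τ, e, h01]
    have e2 : blockMagic τ e (f 2) (f 2) = q := by
      simp [blockMagic, τ, e, h02.symm, h12.symm, h23]
    rw [e1, e2]
    exact hpq

end large

/-- The quantum automorphism group of the complete hypergraph `Γ_V` is the classical symmetric
group `S_V`, for every finite set `V`; it equals `S_V⁺` exactly when `|V| ≤ 3`. -/
theorem result (V : Type) [Fintype V] [DecidableEq V] :
    IsQAut (complete V) (clV V) (clE V) ∧
    (∀ (C : Type) [CStarAlgebra C] (u : Matrix V V C), IsQPerm u →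
      ∀ (𝒜 : Type) [CStarAlgebra 𝒜] (uV : Matrix V V 𝒜)
        (uE : Matrix (Finset V × Finset V) (Finset V × Finset V) 𝒜),
      IsQAut (complete V) uV uE → ∀ π : C →⋆ₐ[ℂ] 𝒜, (∀ v w, π (u v w) = uV v w) →
        (Function.Bijective π ↔ Fintype.card V ≤ 3) ∧
        (Function.Injective π ↔ Fintype.card V ≤ 3)) ∧
    (4 ≤ Fintype.card V → ∃ (B : Type) (_ : CStarAlgebra B) (w : Matrix V V B), Magic w ∧
      ¬ ∃ wE : Matrix (Finset V × Finset V) (Finset V × Finset V) B,
        Rel (complete V) w wE) := by
  refine ⟨isQAut_classical, ?_, ?_⟩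
  · intro C _ u hu 𝒜 _ uV uE hA π hπ
    have hinj : Function.Injective π → Fintype.card V ≤ 3 := by
      intro hinj
      by_contra hcon
      obtain ⟨w, hw, i, j, i', j', hne⟩ := exists_noncomm (V := V) (by omega)
      obtain ⟨φ, hφ, -⟩ := hu.univ _ w hw
      apply hne
      rw [← hφ, ← hφ, ← map_mul, ← map_mul]
      congr 1
      apply hinj
      rw [map_mul, map_mul, hπ, hπ]
      exact comm_entries hA.rel i j i' j'
    have hbij : Fintype.card V ≤ 3 → Function.Bijective π := by
      intro hV
      obtain ⟨α, hα, -⟩ := hA.univ _ (clV V) (clE V) cl_Rel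
      obtain ⟨-, -, -, β, -, hβ⟩ := classical_univ hu.magic (comm_of_card hu.magic hV)
      -- `β ∘ α` is the inverse of `π`
      have h1 : ∀ x, π (β (α x)) = x := by
        obtain ⟨γ, hγ, hγu⟩ := hA.univ 𝒜 uV uE hA.rel
        have e1 := hγu (StarAlgHom.id ℂ 𝒜) ⟨fun _ _ => rfl, fun _ _ => rfl⟩
        obtain ⟨δ, hδ, -⟩ := isQAut_classical.univ 𝒜 uV uE hA.rel
        have e2 : π.comp β = δ := hom_ext fun v w => by
          rw [StarAlgHom.comp_apply, hβ, hπ, hδ.1]
        have e3 := hγu ((π.comp β).comp α) ⟨fun v w => by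
          rw [StarAlgHom.comp_apply, hα.1, e2, hδ.1], fun e f => by
          rw [StarAlgHom.comp_apply, hα.2, e2, hδ.2]⟩
        intro x
        have := DFunLike.congr_fun (e3.trans e1.symm) x
        exact this
      have h2 : ∀ x, β (α (π x)) = x := by
        obtain ⟨γ, hγ, hγu⟩ := hu.univ C u hu.magic
        have e1 := hγu (StarAlgHom.id ℂ C) (fun _ _ => rfl)
        have e2 := hγu ((β.comp α).comp π) (fun v w => by
          rw [StarAlgHom.comp_apply, StarAlgHom.comp_apply, hπ, hα.1, hβ])
        intro x
        exact DFunLike.congr_fun (e2.trans e1.symm) x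
      exact ⟨fun x y hxy => by rw [← h2 x, ← h2 y, hxy], fun x => ⟨_, h1 x⟩⟩
    exact ⟨⟨fun h => hinj h.1, hbij⟩, ⟨hinj, fun h => (hbij h).1⟩⟩
  · intro hV
    obtain ⟨w, hw, i, j, i', j', hne⟩ := exists_noncomm hV
    refine ⟨_, inferInstance, w, hw, ?_⟩
    rintro ⟨wE, hwE⟩
    exact hne (comm_entries hwE i j i' j')

end Pool.Agent.Results.MP_8cf907_al.ClassicalGroup
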